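import Pool.Agent.Helper84.TS.Cls

/-!
# Two classes, three classes
-/

set_option autoImplicit false

namespace Pool.Agent.Helper84.TS

open Pool.Agent.Helper36.TS

variable {A : Fin 4 → Fin 4 → Option (Fin 4 → ℝ)}

theorem fo_some (i : Fin 4) (v : Fin 4 → ℝ) : fo i (some v) = fcl i v := rfl

theorem gs_sub (c k u : ℝ) : gs (c - k) u = gs c u - k * u := by
  unfold gs
  ring

/-- two slots with a minimum -/
theorem two_slots {c k u v x y S S' X Y : ℝ} (h1 : gs c u + x ≤ S + X)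
    (h2 : gs c v + y ≤ S + Y) (h3 : gs (c - k) u + x ≤ S' + X) (h4 : gs (c - k) v + y ≤ S' + Y) :
    gs c u + gs c v - k * min u v + x + y ≤ S + S' + X + Y := by
  rw [gs_sub] at h3 h4
  rcases min_cases u v with ⟨e, -⟩ | ⟨e, -⟩ <;> rw [e] <;> linarith

/-- the row lemma for a good main cell -/
theorem row_cell (h : OF A) {i j k l : Fin 4} (hn : [i, j, k, l].Nodup) {M : Fin 4 → ℝ}
    (hM : A i i = some M) (hf : 3 / 5 ≤ fcl i M) (ν : ℝ) :
    fcl i M ≤ 7 / 6 - ν + (gs ν (-M j) + gs ν (-M k) + gs ν (-M l)) - (ν + 7 / 10) * (M i - 1) := by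
  have hc := h.cell i i M hM
  have hl := cell_lin hc hn
  have hm := h.main i M hM
  have hne := nodup_ne hn
  rw [fcl_eq hn M] at hf ⊢
  exact row (by linarith) (by linarith) (by linarith) (hm j hne.1) (hm k hne.2.1) (hm l hne.2.2)
    (by linarith) (by linarith) (by linarith) hf

theorem pair_min (h : OF A) {i j k l : Fin 4} (hn : [i, j, k, l].Nodup) {M N : Fin 4 → ℝ}
    (hM : A i i = some M) (hN : A j j = some N) :
    min (-M k) (-N k) + min (-M l) (-N l) ≤ (M i - 1) + (N j - 1) := by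
  have hij : i ≠ j := by
    simp only [List.nodup_cons, List.mem_cons, List.not_mem_nil, or_false, not_or] at hn
    exact hn.1.1
  exact (sep_min (h.cell i i M hM) (h.cell j j N hN) hn).1
    (h.sep i i j j M N hM hN (by simpa using hij))

theorem fb2 : ∀ w : ℝ, 0 ≤ w → w ≤ 33 / 200 → w * (1 + w) ^ 2 / 4 - w ^ 3 / 3 ≤ 6 / 100 := by
  intro w h1 h2
  nlinarith [mul_nonneg h1 h1, mul_nonneg h1 (sub_nonneg.2 h2), mul_nonneg h1 (mul_nonneg h1 h1)]

theorem fb3 : ∀ w : ℝ, 0 ≤ w → w ≤ 2 / 5 → w * (1 + w) ^ 2 / 4 - w ^ 3 / 3 ≤ 18 / 100 := by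
  intro w h1 h2
  nlinarith [mul_nonneg h1 h1, mul_nonneg h1 (sub_nonneg.2 h2), mul_nonneg h1 (mul_nonneg h1 h1)]

theorem nd_b : ∀ {a b c l : Fin 4}, [a, b, c, l].Nodup → [b, a, c, l].Nodup := by
  decide

theorem nd_c : ∀ {a b c l : Fin 4}, [a, b, c, l].Nodup → [c, a, b, l].Nodup := by
  decide

theorem nd_ac : ∀ {a b c l : Fin 4}, [a, b, c, l].Nodup → [a, c, b, l].Nodup := by
  decide

theorem nd_bc : ∀ {a b c l : Fin 4}, [a, b, c, l].Nodup → [b, c, a, l].Nodup := by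
  decide

/-- **Two classes.** -/
theorem T2 (H : H1) (h : OF A) {a b k l : Fin 4} (hn : [a, b, k, l].Nodup) :
    VV A a + VV A b ≤ 187 / 100 := by
  by_contra hcon
  push Not at hcon
  have ha1 := H.le_one A h a
  have hb1 := H.le_one A h b
  have hn2 := nd_b hn
  obtain ⟨M, hM, wM, oM, gM⟩ := class_data H h (i := a) (τ := 87 / 100) (W := 33 / 200)
    (by norm_num) (by linarith) (by norm_num) (by norm_num)
  obtain ⟨N, hN, wN, oN, gN⟩ := class_data H h (i := b) (τ := 87 / 100) (W := 33 / 200)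
    (by norm_num) (by linarith) (by norm_num) (by norm_num)
  have gM := gM _ fb2
  have gN := gN _ fb2
  have rM := row_cell h hn hM (by linarith) (1 / 2)
  have rN := row_cell h hn2 hN (by linarith) (1 / 2)
  have pr := pair_min h hn hM hN
  have hne := nodup_ne hn
  have hne2 := nodup_ne hn2
  have oM := oM b k l hn
  have oN := oN a k l hn2
  have s1 : ∀ u : ℝ, -1 ≤ u → gs (1 / 2) u ≤ 1 / 8 := fun u hu => by
    have := slot_n (c := 1 / 2) (by norm_num) hu
    linarith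
  have s1' : ∀ u w d : ℝ, -1 ≤ u → 0 ≤ w → w ≤ 33 / 200 → 0 ≤ d → u ≤ -w + d →
      gs (1 / 2) u + (w * (1 + w) ^ 2 / 4 - w ^ 3 / 3) ≤ 1 / 8 + 2 / 3 * d := by
    intro u w d h1 h2 h3 h4 h5
    have := slot_f (c := 1 / 2) (ρ := 2 / 3) (by norm_num) h1 h2 (by linarith) h4 h5 (by linarith)
    nlinarith [mul_nonneg h2 h2, mul_nonneg h2 (sub_nonneg.2 h3), mul_nonneg h2 (mul_nonneg h2 h2)]
  have s2 : ∀ u : ℝ, -1 ≤ u → gs (1 / 2 - 7 / 20) u ≤ 177 / 10000 := fun u hu => by
    have := slot_n (c := 1 / 2 - 7 / 20) (by norm_num) hu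
    norm_num at this ⊢
    linarith
  have s2' : ∀ u w d : ℝ, -1 ≤ u → 0 ≤ w → w ≤ 33 / 200 → 0 ≤ d → u ≤ -w + d →
      gs (1 / 2 - 7 / 20) u + (w * (1 + w) ^ 2 / 4 - w ^ 3 / 3) ≤ 177 / 10000 + 2 / 3 * d := by
    intro u w d h1 h2 h3 h4 h5
    have := slot_f (c := 1 / 2 - 7 / 20) (ρ := 2 / 3) (by norm_num) h1 h2 (by linarith) h4 h5
      (by norm_num; linarith)
    nlinarith [mul_nonneg h2 h2, mul_nonneg h2 (sub_nonneg.2 h3), mul_nonneg h2 (mul_nonneg h2 h2),
      mul_nonneg h2 (mul_nonneg h2 (sub_nonneg.2 h3))]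
  have Mb := slot_o h hM hne.1 (c := 1 / 2) (by norm_num) (fun F hF => wM b F hne.1 hF) s1 s1'
  have Na := slot_o h hN hne2.1 (c := 1 / 2) (by norm_num) (fun F hF => wN a F hne2.1 hF) s1 s1'
  have Mk := slot_o h hM hne.2.1 (c := 1 / 2) (by norm_num) (fun F hF => wM k F hne.2.1 hF) s1 s1'
  have Nk := slot_o h hN hne2.2.1 (c := 1 / 2) (by norm_num) (fun F hF => wN k F hne2.2.1 hF) s1 s1'
  have Ml := slot_o h hM hne.2.2 (c := 1 / 2) (by norm_num) (fun F hF => wM l F hne.2.2 hF) s1 s1'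
  have Nl := slot_o h hN hne2.2.2 (c := 1 / 2) (by norm_num) (fun F hF => wN l F hne2.2.2 hF) s1 s1'
  have Mk' := slot_o h hM hne.2.1 (by norm_num) (fun F hF => wM k F hne.2.1 hF) s2 s2'
  have Nk' := slot_o h hN hne2.2.1 (by norm_num) (fun F hF => wN k F hne2.2.1 hF) s2 s2'
  have Ml' := slot_o h hM hne.2.2 (by norm_num) (fun F hF => wM l F hne.2.2 hF) s2 s2'
  have Nl' := slot_o h hN hne2.2.2 (by norm_num) (fun F hF => wN l F hne2.2.2 hF) s2 s2'
  have ck := two_slots Mk Nk Mk' Nk'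
  have cl := two_slots Ml Nl Ml' Nl'
  have ea := VV_eq (A := A) hn
  have eb := VV_eq (A := A) hn2
  rw [hM, fo_some] at ea
  rw [hN, fo_some] at eb
  have dM : 0 ≤ M a - 1 := by have := (h.cell a a M hM).one; linarith
  have dN : 0 ≤ N b - 1 := by have := (h.cell b b N hN).one; linarith
  have xM := mul_le_mul_of_nonneg_right oM dM
  have xN := mul_le_mul_of_nonneg_right oN dN
  linarith

/-- **Three classes**, `a` the lowest class of the fourth column. -/
theorem T3_low (H : H1) (h : OF A) {a b c l : Fin 4} (hn : [a, b, c, l].Nodup)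
    {Ma Mb Mc : Fin 4 → ℝ} (hMa : A a a = some Ma) (hMb : A b b = some Mb) (hMc : A c c = some Mc)
    (low1 : -Ma l ≤ -Mb l) (low2 : -Ma l ≤ -Mc l) :
    VV A a + VV A b + VV A c ≤ 533 / 200 := by
  by_contra hcon
  push Not at hcon
  have nb := nd_b hn
  have nc := nd_c hn
  have nac := nd_ac hn
  have nbc := nd_bc hn
  have tab := T2 H h hn
  have tac := T2 H h nac
  have tbc := T2 H h nbc
  obtain ⟨M', hM', wa, oa, ga⟩ := class_data H h (i := a) (τ := 795 / 1000) (W := 2 / 5)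
    (by norm_num) (by linarith) (by norm_num) (by norm_num)
  obtain rfl : Ma = M' := by rw [hM'] at hMa; exact (Option.some.inj hMa).symm
  obtain ⟨M', hM', wb, ob, gb⟩ := class_data H h (i := b) (τ := 795 / 1000) (W := 2 / 5)
    (by norm_num) (by linarith) (by norm_num) (by norm_num)
  obtain rfl : Mb = M' := by rw [hM'] at hMb; exact (Option.some.inj hMb).symm
  obtain ⟨M', hM', wc, oc, gc⟩ := class_data H h (i := c) (τ := 795 / 1000) (W := 2 / 5)
    (by norm_num) (by linarith) (by norm_num) (by norm_num)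
  obtain rfl : Mc = M' := by rw [hM'] at hMc; exact (Option.some.inj hMc).symm
  have ga := ga _ fb3
  have gb := gb _ fb3
  have gc := gc _ fb3
  have ra := row_cell h hn hMa (by linarith) (13 / 20)
  have rb := row_cell h nb hMb (by linarith) (13 / 20)
  have rc := row_cell h nc hMc (by linarith) (13 / 20)
  have pab := pair_min h hn hMa hMb
  have pac := pair_min h nac hMa hMc
  have pbc := pair_min h nbc hMb hMc
  have na := nodup_ne hn
  have nb' := nodup_ne nb
  have nc' := nodup_ne nc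
  have oa := oa b c l hn
  have ob := ob a c l nb
  have oc := oc a b l nc
  -- the slot functions
  have t : ∀ u : ℝ, -1 ≤ u → gs (13 / 20) u ≤ 169 / 800 := fun u hu => by
    have := slot_n (c := 13 / 20) (by norm_num) hu
    linarith
  have t' : ∀ u w d : ℝ, -1 ≤ u → 0 ≤ w → w ≤ 2 / 5 → 0 ≤ d → u ≤ -w + d →
      gs (13 / 20) u + (w * (1 + w) ^ 2 / 4 - w ^ 3 / 3) ≤ 169 / 800 + 13 / 20 * d := by
    intro u w d h1 h2 h3 h4 h5
    have e1 := slot_n (c := 0) (u := u) (by norm_num) h1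
    have e2 : gs (13 / 20) u = gs 0 u + 13 / 20 * u := by unfold gs; ring
    rw [e2]
    nlinarith [mul_nonneg h2 h2, mul_nonneg h2 (sub_nonneg.2 h3), mul_nonneg h2 (mul_nonneg h2 h2)]
  have y : ∀ u : ℝ, -1 ≤ u → gs (13 / 20 - 1 / 4) u ≤ 8 / 100 := fun u hu => by
    have := slot_n (c := 13 / 20 - 1 / 4) (by norm_num) hu
    norm_num at this ⊢
    linarith
  have y' : ∀ u w d : ℝ, -1 ≤ u → 0 ≤ w → w ≤ 2 / 5 → 0 ≤ d → u ≤ -w + d →
      gs (13 / 20 - 1 / 4) u + (w * (1 + w) ^ 2 / 4 - w ^ 3 / 3) ≤ 8 / 100 + 13 / 20 * d := by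
    intro u w d h1 h2 h3 h4 h5
    norm_num
    rcases le_total 0 u with h6 | h6
    · rw [gs_pos h6]
      nlinarith [mul_nonneg h2 h2, mul_nonneg h2 (sub_nonneg.2 h3), mul_nonneg h2 (mul_nonneg h2 h2), sq_nonneg u]
    · rw [gs_neg h6]
      have e3 : gs (0 : ℝ) u ≤ 0 := by
        have := slot_n (c := 0) (u := u) (by norm_num) h1
        simpa using this
      rw [gs_neg h6] at e3
      nlinarith [mul_nonneg h2 h2, mul_nonneg h2 (sub_nonneg.2 h3), mul_nonneg h2 (mul_nonneg h2 h2), mul_nonneg h2 (mul_nonneg h2 (sub_nonneg.2 h3)), sq_nonneg (u + w), sq_nonneg (u + 1 / 4)]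
  have x : ∀ u : ℝ, -1 ≤ u → gs (13 / 20 - 17 / 40) u ≤ 26 / 1000 := fun u hu => by
    have := slot_n (c := 13 / 20 - 17 / 40) (by norm_num) hu
    norm_num at this ⊢
    linarith
  have x' : ∀ u w d : ℝ, -1 ≤ u → 0 ≤ w → w ≤ 2 / 5 → 0 ≤ d → u ≤ -w + d →
      gs (13 / 20 - 17 / 40) u + (w * (1 + w) ^ 2 / 4 - w ^ 3 / 3) ≤ 26 / 1000 + 13 / 20 * d := by
    intro u w d h1 h2 h3 h4 h5
    have := slot_f (c := 13 / 20 - 17 / 40) (ρ := 13 / 20) (by norm_num) h1 h2 (by linarith) h4 h5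
      (by norm_num; linarith)
    nlinarith [mul_nonneg h2 h2, mul_nonneg h2 (sub_nonneg.2 h3), mul_nonneg h2 (mul_nonneg h2 h2),
      mul_nonneg h2 (mul_nonneg h2 (sub_nonneg.2 h3))]
  have z : ∀ u : ℝ, -1 ≤ u → gs (13 / 20 - 1 / 4 - 1 / 4) u ≤ 56 / 1000 := fun u hu => by
    have := slot_n (c := 13 / 20 - 1 / 4 - 1 / 4) (by norm_num) hu
    norm_num at this ⊢
    linarith
  have z' : ∀ u w d : ℝ, -1 ≤ u → 0 ≤ w → w ≤ 2 / 5 → 0 ≤ d → u ≤ -w + d →
      gs (13 / 20 - 1 / 4 - 1 / 4) u + (w * (1 + w) ^ 2 / 4 - w ^ 3 / 3) ≤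
        56 / 1000 + 13 / 20 * d := by
    intro u w d h1 h2 h3 h4 h5
    have := slot_f (c := 13 / 20 - 1 / 4 - 1 / 4) (ρ := 13 / 20) (by norm_num) h1 h2 (by linarith)
      h4 h5 (by norm_num; linarith)
    nlinarith [mul_nonneg h2 h2, mul_nonneg h2 (sub_nonneg.2 h3), mul_nonneg h2 (mul_nonneg h2 h2),
      mul_nonneg h2 (mul_nonneg h2 (sub_nonneg.2 h3))]
  -- column a: classes b, c
  have ca := two_slots
    (slot_o h hMb nb'.1 (by norm_num) (fun F hF => wb a F nb'.1 hF) t t')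
    (slot_o h hMc nc'.1 (by norm_num) (fun F hF => wc a F nc'.1 hF) t t')
    (slot_o h hMb nb'.1 (by norm_num) (fun F hF => wb a F nb'.1 hF) x x')
    (slot_o h hMc nc'.1 (by norm_num) (fun F hF => wc a F nc'.1 hF) x x')
  -- column b: classes a, c
  have cb := two_slots
    (slot_o h hMa na.1 (by norm_num) (fun F hF => wa b F na.1 hF) t t')
    (slot_o h hMc nc'.2.1 (by norm_num) (fun F hF => wc b F nc'.2.1 hF) t t')
    (slot_o h hMa na.1 (by norm_num) (fun F hF => wa b F na.1 hF) y y')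
    (slot_o h hMc nc'.2.1 (by norm_num) (fun F hF => wc b F nc'.2.1 hF) y y')
  -- column c: classes a, b
  have cc := two_slots
    (slot_o h hMa na.2.1 (by norm_num) (fun F hF => wa c F na.2.1 hF) t t')
    (slot_o h hMb nb'.2.1 (by norm_num) (fun F hF => wb c F nb'.2.1 hF) t t')
    (slot_o h hMa na.2.1 (by norm_num) (fun F hF => wa c F na.2.1 hF) y y')
    (slot_o h hMb nb'.2.1 (by norm_num) (fun F hF => wb c F nb'.2.1 hF) y y')
  -- column l
  have cl := two_slots
    (slot_o h hMb nb'.2.2 (by norm_num) (fun F hF => wb l F nb'.2.2 hF) t t')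
    (slot_o h hMc nc'.2.2 (by norm_num) (fun F hF => wc l F nc'.2.2 hF) t t')
    (slot_o h hMb nb'.2.2 (by norm_num) (fun F hF => wb l F nb'.2.2 hF) x x')
    (slot_o h hMc nc'.2.2 (by norm_num) (fun F hF => wc l F nc'.2.2 hF) x x')
  have cl2 := slot_o h hMa na.2.2 (by norm_num) (fun F hF => wa l F na.2.2 hF) z z'
  rw [gs_sub, gs_sub] at cl2
  have e1 : min (-Ma l) (-Mb l) = -Ma l := min_eq_left low1
  have e2 : min (-Ma l) (-Mc l) = -Ma l := min_eq_left low2
  rw [e1] at pab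
  rw [e2] at pac
  have va := VV_eq (A := A) hn
  have vb := VV_eq (A := A) nb
  have vc := VV_eq (A := A) nc
  rw [hMa, fo_some] at va
  rw [hMb, fo_some] at vb
  rw [hMc, fo_some] at vc
  have da : 0 ≤ Ma a - 1 := by have := (h.cell a a Ma hMa).one; linarith
  have db : 0 ≤ Mb b - 1 := by have := (h.cell b b Mb hMb).one; linarith
  have dc : 0 ≤ Mc c - 1 := by have := (h.cell c c Mc hMc).one; linarith
  have xa := mul_le_mul_of_nonneg_right oa da
  have xb := mul_le_mul_of_nonneg_right ob db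
  have xc := mul_le_mul_of_nonneg_right oc dc
  linarith

theorem nd_perm1 : ∀ {a b c l : Fin 4}, [a, b, c, l].Nodup → [c, b, a, l].Nodup := by
  decide

/-- **Three classes.** -/
theorem T3 (H : H1) (h : OF A) {a b c l : Fin 4} (hn : [a, b, c, l].Nodup) :
    VV A a + VV A b + VV A c ≤ 533 / 200 := by
  by_contra hcon
  push Not at hcon
  have nb := nd_b hn
  have nc := nd_c hn
  have nac := nd_ac hn
  have nbc := nd_bc hn
  have tab := T2 H h hn
  have tac := T2 H h nac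
  have tbc := T2 H h nbc
  obtain ⟨Ma, hMa, -⟩ := class_data H h (i := a) (τ := 795 / 1000) (W := 2 / 5)
    (by norm_num) (by linarith) (by norm_num) (by norm_num)
  obtain ⟨Mb, hMb, -⟩ := class_data H h (i := b) (τ := 795 / 1000) (W := 2 / 5)
    (by norm_num) (by linarith) (by norm_num) (by norm_num)
  obtain ⟨Mc, hMc, -⟩ := class_data H h (i := c) (τ := 795 / 1000) (W := 2 / 5)
    (by norm_num) (by linarith) (by norm_num) (by norm_num)
  rcases le_total (-Ma l) (-Mb l) with h1 | h1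
  · rcases le_total (-Ma l) (-Mc l) with h2 | h2
    · have := T3_low H h hn hMa hMb hMc h1 h2
      linarith
    · have := T3_low H h nc hMc hMa hMb h2 (h2.trans h1)
      linarith
  · rcases le_total (-Mb l) (-Mc l) with h2 | h2
    · have := T3_low H h nb hMb hMa hMc h1 h2
      linarith
    · have := T3_low H h nc hMc hMa hMb (h2.trans h1) h2
      linarith

/-- the values of all classes of a bad family are large -/
theorem VV_gt (H : H1) (h : OF A) {τ : ℝ} (hs : 533 / 200 + τ < ∑ i, VV A i) (i : Fin 4) :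
    τ < VV A i := by
  obtain ⟨j, k, l, hn⟩ := exists_rest3 i
  rw [sum4 hn] at hs
  have hn2 : [j, k, l, i].Nodup := by
    clear hs
    revert i j k l
    decide
  have := T3 H h hn2
  linarith

end Pool.Agent.Helper84.TS
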