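import Pool.Agent.Helper44.TS.H1
import Pool.Agent.Helper74.TS.Big

/-!
# The cases of the finite-dimensional problem, and how they give `FD (613/200)`

Each `Case...` is one proposition, to be proved separately; `fd_of_cases` puts them together.
-/

set_option autoImplicit false

namespace Pool.Agent.Helper84.TS

open Pool.Agent.Helper36.TS

variable {A : Fin 4 → Fin 4 → Option (Fin 4 → ℝ)} {P : Fin 4 → Fin 4 → ℝ}

/-- the class `i` is good: it has a main cell of height less than `3/5`, and `w ≤ 13/20` for all its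
far cells -/
def Good (A : Fin 4 → Fin 4 → Option (Fin 4 → ℝ)) (i : Fin 4) : Prop :=
  ∃ M, A i i = some M ∧ M i - 1 < 3 / 5 ∧ ∀ j F, j ≠ i → A i j = some F → 2 + F j ≤ 13 / 20

/-- a class that is not good: no main cell or a high one (`R2`), or a far cell with `w > 13/20`
(`R3`) -/
theorem not_good {i : Fin 4} (h : ¬ Good A i) :
    (A i i = none ∨ ∃ M, A i i = some M ∧ 3 / 5 ≤ M i - 1) ∨
      ∃ M, A i i = some M ∧ M i - 1 < 3 / 5 ∧
        ∃ j F, j ≠ i ∧ A i j = some F ∧ 13 / 20 < 2 + F j := by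
  rcases hM : A i i with _ | M
  · exact Or.inl (Or.inl rfl)
  · by_cases hd : M i - 1 < 3 / 5
    · right
      refine ⟨M, rfl, hd, ?_⟩
      by_contra hcon
      refine h ⟨M, hM, hd, fun j F hj hF => ?_⟩
      by_contra hw
      exact hcon ⟨j, F, hj, hF, not_le.1 hw⟩
    · exact Or.inl (Or.inr ⟨M, rfl, not_lt.1 hd⟩)

/-- four good classes; `P i` is the main cell of the class `i` -/
structure Base (A : Fin 4 → Fin 4 → Option (Fin 4 → ℝ)) (P : Fin 4 → Fin 4 → ℝ) : Prop where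
  of : OF A
  hP : ∀ i, A i i = some (P i)
  hd : ∀ i, P i i - 1 < 3 / 5
  hw : ∀ i j F, j ≠ i → A i j = some F → 2 + F j ≤ 13 / 20

/-- the class `c` has the lowest entry of the column `m` -/
structure Low (P : Fin 4 → Fin 4 → ℝ) (m c : Fin 4) : Prop where
  ne : c ≠ m
  le : ∀ x, x ≠ m → -P c m ≤ -P x m

/-- at most one far cell in each column -/
def OneFar (A : Fin 4 → Fin 4 → Option (Fin 4 → ℝ)) : Prop :=
  ∀ m x y F G, x ≠ m → y ≠ m → A x m = some F → A y m = some G → x = y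

/-! ### The cases -/

/-- three classes that are not good -/
def CaseThree : Prop := ∀ A : Fin 4 → Fin 4 → Option (Fin 4 → ℝ), OF A → ∀ a b c l : Fin 4,
  [a, b, c, l].Nodup → ¬ Good A a → ¬ Good A b → ¬ Good A c → ∑ i, VV A i ≤ 613 / 200

/-- exactly two classes that are not good -/
def CaseTwo : Prop := ∀ A : Fin 4 → Fin 4 → Option (Fin 4 → ℝ), OF A → ∀ a b c l : Fin 4,
  [a, b, c, l].Nodup → ¬ Good A a → ¬ Good A b → Good A c → Good A l → ∑ i, VV A i ≤ 613 / 200

/-- a class of kind `R2`: no main cell, or a high one -/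
def R2 (A : Fin 4 → Fin 4 → Option (Fin 4 → ℝ)) (a : Fin 4) : Prop :=
  A a a = none ∨ ∃ M, A a a = some M ∧ 3 / 5 ≤ M a - 1

/-- a class of kind `R3`: a main cell of height less than `3/5` and a far cell with `w > 13/20` -/
def R3 (A : Fin 4 → Fin 4 → Option (Fin 4 → ℝ)) (a : Fin 4) : Prop :=
  ∃ M, A a a = some M ∧ M a - 1 < 3 / 5 ∧
    ∃ j F, j ≠ a ∧ A a j = some F ∧ 13 / 20 < 2 + F j

/-- `CaseTwo`, both classes of kind `R2` -/
def CaseTwoLow : Prop := ∀ A : Fin 4 → Fin 4 → Option (Fin 4 → ℝ), OF A → ∀ a b c l : Fin 4,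
  [a, b, c, l].Nodup → R2 A a → R2 A b → Good A c → Good A l → ∑ i, VV A i ≤ 613 / 200

/-- `CaseTwo`, one class of kind `R2` and one of kind `R3` -/
def CaseTwoMixed : Prop := ∀ A : Fin 4 → Fin 4 → Option (Fin 4 → ℝ), OF A → ∀ a b c l : Fin 4,
  [a, b, c, l].Nodup → R2 A a → R3 A b → Good A c → Good A l → ∑ i, VV A i ≤ 613 / 200

/-- `CaseTwo`, both classes of kind `R3` -/
def CaseTwoTall : Prop := ∀ A : Fin 4 → Fin 4 → Option (Fin 4 → ℝ), OF A → ∀ a b c l : Fin 4,
  [a, b, c, l].Nodup → R3 A a → R3 A b → Good A c → Good A l → ∑ i, VV A i ≤ 613 / 200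

theorem caseTwo_of (h1 : CaseTwoLow) (h2 : CaseTwoMixed) (h3 : CaseTwoTall) : CaseTwo := by
  intro A h a b c l hn ha hb hc hl
  have hn' : [b, a, c, l].Nodup := swap_nodup hn
  rcases not_good ha with ha | ha <;> rcases not_good hb with hb | hb
  · exact h1 A h a b c l hn ha hb hc hl
  · exact h2 A h a b c l hn ha hb hc hl
  · exact h2 A h b a c l hn' hb ha hc hl
  · exact h3 A h a b c l hn ha hb hc hl

/-- exactly one class that is not good, of kind `R2` -/
def CaseOneLow : Prop := ∀ A : Fin 4 → Fin 4 → Option (Fin 4 → ℝ), OF A → ∀ a b c l : Fin 4,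
  [a, b, c, l].Nodup → (A a a = none ∨ ∃ M, A a a = some M ∧ 3 / 5 ≤ M a - 1) →
  Good A b → Good A c → Good A l → ∑ i, VV A i ≤ 613 / 200

/-- exactly one class that is not good, of kind `R3` -/
def CaseOneTall : Prop := ∀ A : Fin 4 → Fin 4 → Option (Fin 4 → ℝ), OF A → ∀ a b c l : Fin 4,
  [a, b, c, l].Nodup → ∀ M F : Fin 4 → ℝ, A a a = some M → M a - 1 < 3 / 5 → A a b = some F →
  13 / 20 < 2 + F b → Good A b → Good A c → Good A l → ∑ i, VV A i ≤ 613 / 200

/-- four good classes and a column with two far cells -/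
def CaseTwoFar : Prop := ∀ (A : Fin 4 → Fin 4 → Option (Fin 4 → ℝ)) (P : Fin 4 → Fin 4 → ℝ),
  Base A P → ∀ m x y l : Fin 4, [m, x, y, l].Nodup → ∀ F G : Fin 4 → ℝ, A x m = some F →
  A y m = some G → ∑ i, VV A i ≤ 613 / 200

/-- the type `(2,3,1,1)`: the lowest classes of the columns `i, j, k, l` are `j, k, i, i` -/
def CaseT2311 : Prop := ∀ (A : Fin 4 → Fin 4 → Option (Fin 4 → ℝ)) (P : Fin 4 → Fin 4 → ℝ),
  Base A P → OneFar A → ∀ i j k l : Fin 4, [i, j, k, l].Nodup →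
  Low P i j → Low P j k → Low P k i → Low P l i → ∑ i, VV A i ≤ 613 / 200

/-- the type `(2,3,4,1)` -/
def CaseT2341 : Prop := ∀ (A : Fin 4 → Fin 4 → Option (Fin 4 → ℝ)) (P : Fin 4 → Fin 4 → ℝ),
  Base A P → OneFar A → ∀ i j k l : Fin 4, [i, j, k, l].Nodup →
  Low P i j → Low P j k → Low P k l → Low P l i → ∑ i, VV A i ≤ 613 / 200

/-- the type `(2,1,4,3)` -/
def CaseT2143 : Prop := ∀ (A : Fin 4 → Fin 4 → Option (Fin 4 → ℝ)) (P : Fin 4 → Fin 4 → ℝ),
  Base A P → OneFar A → ∀ i j k l : Fin 4, [i, j, k, l].Nodup →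
  Low P i j → Low P j i → Low P k l → Low P l k → ∑ i, VV A i ≤ 613 / 200

/-- the type `(2,1,1,2)` -/
def CaseT2112 : Prop := ∀ (A : Fin 4 → Fin 4 → Option (Fin 4 → ℝ)) (P : Fin 4 → Fin 4 → ℝ),
  Base A P → OneFar A → ∀ i j k l : Fin 4, [i, j, k, l].Nodup →
  Low P i j → Low P j i → Low P k i → Low P l j → ∑ i, VV A i ≤ 613 / 200

/-- the type `(2,1,1,3)` -/
def CaseT2113 : Prop := ∀ (A : Fin 4 → Fin 4 → Option (Fin 4 → ℝ)) (P : Fin 4 → Fin 4 → ℝ),
  Base A P → OneFar A → ∀ i j k l : Fin 4, [i, j, k, l].Nodup →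
  Low P i j → Low P j i → Low P k i → Low P l k → ∑ i, VV A i ≤ 613 / 200

/-- the type `(2,1,1,1)` -/
def CaseT2111 : Prop := ∀ (A : Fin 4 → Fin 4 → Option (Fin 4 → ℝ)) (P : Fin 4 → Fin 4 → ℝ),
  Base A P → OneFar A → ∀ i j k l : Fin 4, [i, j, k, l].Nodup →
  Low P i j → Low P j i → Low P k i → Low P l i → ∑ i, VV A i ≤ 613 / 200

/-! ### The type `(2,1,1,1)` -/

theorem caseT2111 : CaseT2111 := by
  intro A P hB _ i j k l hn li lj lk ll
  classical
  -- the lowest classes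
  obtain ⟨t, ht⟩ : ∃ t : Fin 4 → Fin 4, ∀ m, t m = if m = i then j else i := ⟨_, fun _ => rfl⟩
  have hl : ∀ m x, x ≠ m → -P (t m) m ≤ -P x m := by
    intro m x hx
    rw [ht m]
    split_ifs with hm
    · subst hm
      exact li.le x hx
    · rcases mem4 hn m with rfl | rfl | rfl | rfl
      · exact absurd rfl hm
      · exact lj.le x hx
      · exact lk.le x hx
      · exact ll.le x hx
  have h1 := Pool.Agent.Helper74.TS.type_2111_le' hB.of hB.hP (fun i => (hB.hd i).le) hB.hw hl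
    (i := i) (fun m hm => by rw [ht m, if_neg hm])
  linarith

/-! ### Putting the cases together -/

/-- the six types for arbitrary labels -/
theorem types_cases : ∀ t : Fin 4 → Fin 4, (∀ m, t m ≠ m) → ∃ i j k l : Fin 4,
    [i, j, k, l].Nodup ∧ ((t i = j ∧ t j = k ∧ t k = i ∧ t l = i) ∨
      (t i = j ∧ t j = k ∧ t k = l ∧ t l = i) ∨ (t i = j ∧ t j = i ∧ t k = l ∧ t l = k) ∨
      (t i = j ∧ t j = i ∧ t k = i ∧ t l = j) ∨ (t i = j ∧ t j = i ∧ t k = i ∧ t l = k) ∨
      (t i = j ∧ t j = i ∧ t k = i ∧ t l = i)) := by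
  decide +kernel

theorem base_le (h4 : CaseTwoFar) (t1 : CaseT2311) (t2 : CaseT2341) (t3 : CaseT2143)
    (t4 : CaseT2112) (t5 : CaseT2113) (h : Base A P) : ∑ i, VV A i ≤ 613 / 200 := by
  by_cases h1 : OneFar A
  · obtain ⟨t, ht1, ht2⟩ := exists_low P
    have hlow : ∀ m, Low P m (t m) := fun m => ⟨ht1 m, fun x hx => ht2 m x hx⟩
    obtain ⟨i, j, k, l, hn, hc⟩ := types_cases t ht1
    have li := hlow i
    have lj := hlow j
    have lk := hlow k
    have ll := hlow l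
    rcases hc with hc | hc | hc | hc | hc | hc <;> obtain ⟨e1, e2, e3, e4⟩ := hc <;>
      rw [e1] at li <;> rw [e2] at lj <;> rw [e3] at lk <;> rw [e4] at ll
    · exact t1 A P h h1 i j k l hn li lj lk ll
    · exact t2 A P h h1 i j k l hn li lj lk ll
    · exact t3 A P h h1 i j k l hn li lj lk ll
    · exact t4 A P h h1 i j k l hn li lj lk ll
    · exact t5 A P h h1 i j k l hn li lj lk ll
    · exact caseT2111 A P h h1 i j k l hn li lj lk ll
  · unfold OneFar at h1
    push Not at h1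
    obtain ⟨m, x, y, F, G, hx, hy, hF, hG, hxy⟩ := h1
    obtain ⟨l, hn⟩ := exists_rest1 (i := m) (j := x) (k := y) (by
      simp only [List.nodup_cons, List.mem_cons, List.not_mem_nil, or_false, not_or,
        List.nodup_nil, and_true, not_false_eq_true]
      exact ⟨⟨hx.symm, hy.symm⟩, hxy⟩)
    exact h4 A P h m x y l hn F G hF hG

/-- which classes are good -/
theorem good_cases : ∀ g : Fin 4 → Bool, (∀ i, g i = true) ∨
    (∃ a b c l : Fin 4, [a, b, c, l].Nodup ∧ g a = false ∧ g b = true ∧ g c = true ∧ g l = true) ∨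
    (∃ a b c l : Fin 4, [a, b, c, l].Nodup ∧ g a = false ∧ g b = false ∧ g c = true ∧ g l = true) ∨
    (∃ a b c l : Fin 4, [a, b, c, l].Nodup ∧ g a = false ∧ g b = false ∧ g c = false) := by
  decide +kernel

/-- **The finite-dimensional problem from its cases.** -/
theorem fd_of_cases (h1 : CaseThree) (h2 : CaseTwo) (h3 : CaseOneLow) (h3' : CaseOneTall)
    (h4 : CaseTwoFar) (t1 : CaseT2311) (t2 : CaseT2341) (t3 : CaseT2143) (t4 : CaseT2112)
    (t5 : CaseT2113) : FD (613 / 200) := by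
  classical
  intro Y c hc hs
  obtain ⟨A, hA, hsum⟩ := exists_OF (Y := Y) (c := c) ⟨hc, hs⟩
  rw [hsum]
  obtain ⟨g, hg⟩ : ∃ g : Fin 4 → Bool, ∀ i, g i = decide (Good A i) := ⟨_, fun _ => rfl⟩
  have hgt : ∀ i, g i = true → Good A i := fun i hi => by
    rw [hg i] at hi
    exact of_decide_eq_true hi
  have hgf : ∀ i, g i = false → ¬ Good A i := fun i hi => by
    rw [hg i] at hi
    exact of_decide_eq_false hi
  rcases good_cases g with h | ⟨a, b, c, l, hn, ha, hb, hc, hl⟩ |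
      ⟨a, b, c, l, hn, ha, hb, hc, hl⟩ | ⟨a, b, c, l, hn, ha, hb, hc⟩
  · have h' : ∀ i, ∃ M, A i i = some M ∧ M i - 1 < 3 / 5 ∧
        ∀ j F, j ≠ i → A i j = some F → 2 + F j ≤ 13 / 20 := fun i => hgt i (h i)
    choose P hP1 hP2 hP3 using h'
    exact base_le h4 t1 t2 t3 t4 t5 ⟨hA, hP1, hP2, hP3⟩
  · rcases not_good (hgf a ha) with h | ⟨M, hM, hd, j, F, hj, hF, hw⟩
    · exact h3 A hA a b c l hn h (hgt b hb) (hgt c hc) (hgt l hl)
    · have hbcl : ∀ x, x ≠ a → Good A x := by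
        intro x hx
        rcases mem4 hn x with rfl | rfl | rfl | rfl
        · exact absurd rfl hx
        · exact hgt _ hb
        · exact hgt _ hc
        · exact hgt _ hl
      obtain ⟨k, l', hn'⟩ := exists_rest2 (i := a) (j := j) hj.symm
      have hne := nodup_ne hn'
      exact h3' A hA a j k l' hn' M F hM hd hF hw (hbcl j hne.1) (hbcl k hne.2.1) (hbcl l' hne.2.2)
  · exact h2 A hA a b c l hn (hgf a ha) (hgf b hb) (hgt c hc) (hgt l hl)
  · exact h1 A hA a b c l hn (hgf a ha) (hgf b hb) (hgf c hc)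

end Pool.Agent.Helper84.TS
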