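import Mathlib

/-!
# The finite-dimensional problem behind the local problem for the cuboctahedron

A cell is a vector `v : Fin 4 → ℝ` of sum zero with some coordinate `v i ≥ 1`; the row of the cell
is `q m = -v m` (`m ≠ i`), and `d = v i - 1`. `fvol v` is the volume of `DD ∩ (v + DD)`.
-/

set_option autoImplicit false

namespace Pool.Agent.Helper84.TS

/-- the volume in terms of `d` and the three entries of the row -/
noncomputable def ff (d a b c : ℝ) : ℝ :=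
  7 / 6 - 3 / 2 * d + d ^ 2 / 2 - d ^ 3 / 6 - (1 - d) * (a ^ 2 + b ^ 2 + c ^ 2) / 2
    + ((max (-a) 0) ^ 3 + (max (-b) 0) ^ 3 + (max (-c) 0) ^ 3) / 3
    + (1 - d) * ((max (a - 1) 0) ^ 2 + (max (b - 1) 0) ^ 2 + (max (c - 1) 0) ^ 2)

/-- the volume of a cell of class `i` -/
noncomputable def fcl (i : Fin 4) (v : Fin 4 → ℝ) : ℝ :=
  match i with
  | 0 => ff (v 0 - 1) (-v 1) (-v 2) (-v 3)
  | 1 => ff (v 1 - 1) (-v 0) (-v 2) (-v 3)
  | 2 => ff (v 2 - 1) (-v 0) (-v 1) (-v 3)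
  | 3 => ff (v 3 - 1) (-v 0) (-v 1) (-v 2)

/-- a cell of class `i` that covers something -/
structure IsCell (i : Fin 4) (v : Fin 4 → ℝ) : Prop where
  sum : ∑ m, v m = 0
  one : 1 ≤ v i
  two : ∑ m, max (v m) 0 < 2

/-- two cells are compatible -/
def Sep (v w : Fin 4 → ℝ) : Prop := 2 ≤ ∑ m, max (v m - w m) 0

/-- the finite-dimensional problem: `c v` is the class of the cell `v` -/
def FD (M : ℝ) : Prop :=
  ∀ (Y : Finset (Fin 4 → ℝ)) (c : (Fin 4 → ℝ) → Fin 4), (∀ v ∈ Y, IsCell (c v) v) →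
    (∀ v ∈ Y, ∀ w ∈ Y, v ≠ w → Sep v w) → ∑ v ∈ Y, fcl (c v) v ≤ M

end Pool.Agent.Helper84.TS
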