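import Pool.Agent.Helper59.Pack.Chain
import Pool.Agent.Helper84.Tet.PackDefs

/-!
# The two descriptions of the regular tetrahedron
-/

set_option autoImplicit false

namespace Pool.Agent.Helper84.TS

open Pool.Agent.Helper59.Pack
open Pool.Agent.Helper84.Tet (E3 tetrahedron)

theorem mem_tetrahedron' {v : E3} (h1 : -v 0 - v 1 - v 2 ≤ 1) (h2 : -v 0 + v 1 + v 2 ≤ 1)
    (h3 : v 0 - v 1 + v 2 ≤ 1) (h4 : v 0 + v 1 - v 2 ≤ 1) : v ∈ tetrahedron := by
  have hmem := (convex_convexHull ℝ ({!₂[(1 : ℝ), 1, 1], !₂[(1 : ℝ), -1, -1], !₂[(-1 : ℝ), 1, -1],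
    !₂[(-1 : ℝ), -1, 1]} : Set E3)).sum_mem (t := (Finset.univ : Finset (Fin 4)))
    (w := ![(1 - (-v 0 - v 1 - v 2)) / 4, (1 - (-v 0 + v 1 + v 2)) / 4,
      (1 - (v 0 - v 1 + v 2)) / 4, (1 - (v 0 + v 1 - v 2)) / 4])
    (z := ![!₂[(1 : ℝ), 1, 1], !₂[(1 : ℝ), -1, -1], !₂[(-1 : ℝ), 1, -1], !₂[(-1 : ℝ), -1, 1]])
    ?_ ?_ ?_
  · unfold tetrahedron
    convert hmem using 1
    rw [Fin.sum_univ_four]
    ext i
    fin_cases i <;> simp <;> ring
  · intro i _
    fin_cases i <;> simp <;> linarith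
  · rw [Fin.sum_univ_four]
    simp
    ring
  · intro i _
    apply subset_convexHull
    fin_cases i <;> simp

theorem convex_tet : Convex ℝ (tet : Set E3) := by
  intro x hx y hy a b ha hb hab
  obtain ⟨h1, h2, h3, h4⟩ := hx
  obtain ⟨g1, g2, g3, g4⟩ := hy
  have hb' : b = 1 - a := by linarith
  subst hb'
  refine ⟨?_, ?_, ?_, ?_⟩ <;>
    simp only [PiLp.add_apply, PiLp.smul_apply, smul_eq_mul] <;>
    nlinarith

theorem tet_eq : (tet : Set E3) = tetrahedron := by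
  apply Set.Subset.antisymm
  · rintro v ⟨h1, h2, h3, h4⟩
    exact mem_tetrahedron' h1 h2 h3 h4
  · apply convexHull_min _ convex_tet
    intro v hv
    simp only [Set.mem_insert_iff, Set.mem_singleton_iff] at hv
    rcases hv with rfl | rfl | rfl | rfl <;>
      refine ⟨?_, ?_, ?_, ?_⟩ <;> simp <;> norm_num

end Pool.Agent.Helper84.TS
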