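import Pool.Agent.Helper59.Pack.Chain
import Pool.Agent.Helper47.CO.Lat

/-!
# The ball: `δ_{T*}(ball) ≥ π/√18`
-/

set_option autoImplicit false

namespace Pool.Agent.Helper84.TS

open MeasureTheory Filter Topology Metric
open scoped Pointwise ENNReal
open Pool.Agent.Helper47.CO (latOf covolume_latOf mem_latOf std)
open Pool.Agent.Helper69.MD

/-- the lattice packing with a given basis -/
theorem le_deltaL_basis {K : Set E3} (hK : IsCompact K) (b : Module.Basis (Fin 3) ℝ E3)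
    (hpack : ∀ n : Fin 3 → ℤ, n ≠ 0 → ∀ x ∈ interior K, ∀ y ∈ interior K,
      x - y ≠ ∑ i, (n i : ℝ) • b i) :
    volume K / ENNReal.ofReal |std.det b| ≤ deltaL K := by
  have hp : IsPacking K (latOf b) := by
    intro u hu v hv huv
    rw [interior_vadd, interior_vadd, Set.disjoint_left]
    rintro z ⟨x, hx, hxz⟩ ⟨y, hy, hyz⟩
    have hmem : v - u ∈ latOf b := (latOf b).sub_mem hv hu
    obtain ⟨n, hn⟩ := mem_latOf hmem
    have hn0 : n ≠ 0 := by
      rintro rfl
      apply huv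
      have : v - u = 0 := by rw [hn]; simp
      exact (sub_eq_zero.1 this).symm
    refine hpack n hn0 x hx y hy ?_
    rw [← hn]
    have h1 : u + x = z := hxz
    have h2 : v + y = z := hyz
    have h3 : u + x = v + y := h1.trans h2.symm
    rw [sub_eq_sub_iff_add_eq_add, add_comm x u, h3]
  have h : density K (latOf b) ≤ deltaL K := by
    unfold deltaL
    exact le_iSup_of_le (latOf b) (le_iSup_of_le inferInstance (le_iSup_of_le inferInstance
      (le_iSup_of_le hp le_rfl)))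
  rwa [density_eq hK.isBounded, covolume_latOf] at h

/-- `δ_T ≤ δ_{T*}` -/
theorem deltaT_le_deltaTstar (K : Set E3) :
    Pool.Agent.Helper59.Pack.deltaT K ≤ Pool.Agent.Helper59.Pack.deltaTstar K := by
  unfold Pool.Agent.Helper59.Pack.deltaT Pool.Agent.Helper59.Pack.deltaTstar
  refine iSup_le fun S => iSup_le fun hS => ?_
  refine le_trans (le_of_eq ?_) (le_iSup_of_le S (le_iSup_of_le (∅ : Set E3)
    (le_iSup_of_le (⟨hS, ?_, ?_⟩ : Pool.Agent.Helper59.Pack.IsTstarPacking K S ∅) le_rfl)))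
  · unfold Pool.Agent.Helper59.Pack.tDensity Pool.Agent.Helper59.Pack.tstarDensity
    congr 1
    funext r
    simp
  · intro u hu
    exact absurd hu (Set.notMem_empty u)
  · intro u _ w hw
    exact absurd hw (Set.notMem_empty w)

/-- the face-centred cubic lattice with minimum `2` -/
theorem exists_fcc : ∃ b : Module.Basis (Fin 3) ℝ E3,
    b 0 = !₂[√2, √2, 0] ∧ b 1 = !₂[√2, 0, √2] ∧ b 2 = !₂[0, √2, √2] := by
  have h2 : (0 : ℝ) < √2 := by positivity
  have hli : LinearIndependent ℝ ![(!₂[√2, √2, 0] : E3), !₂[√2, 0, √2], !₂[0, √2, √2]] := by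
    rw [Fintype.linearIndependent_iff]
    intro g hg
    rw [Fin.sum_univ_three] at hg
    simp only [Matrix.cons_val_zero, Matrix.cons_val_one, Matrix.cons_val] at hg
    have h0 := congrArg (fun x : E3 => x 0) hg
    have h1 := congrArg (fun x : E3 => x 1) hg
    have h3 := congrArg (fun x : E3 => x 2) hg
    simp at h0 h1 h3
    have e0 : (g 0 + g 1) * √2 = 0 := by linarith
    have e1 : (g 0 + g 2) * √2 = 0 := by linarith
    have e2 : (g 1 + g 2) * √2 = 0 := by linarith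
    have f0 := (mul_eq_zero.1 e0).resolve_right h2.ne'
    have f1 := (mul_eq_zero.1 e1).resolve_right h2.ne'
    have f2 := (mul_eq_zero.1 e2).resolve_right h2.ne'
    intro i
    fin_cases i
    · show g 0 = 0
      linarith
    · show g 1 = 0
      linarith
    · show g 2 = 0
      linarith
  refine ⟨basisOfLinearIndependentOfCardEqFinrank hli (by simp), ?_, ?_, ?_⟩ <;> simp

theorem fcc_det {b : Module.Basis (Fin 3) ℝ E3} (h0 : b 0 = !₂[√2, √2, 0])
    (h1 : b 1 = !₂[√2, 0, √2]) (h2 : b 2 = !₂[0, √2, √2]) : |std.det b| = 4 * √2 := by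
  have hs : √2 * √2 = 2 := Real.mul_self_sqrt (by norm_num)
  have hp : (0 : ℝ) < √2 := by positivity
  rw [Module.Basis.det_apply, Matrix.det_fin_three]
  simp only [Module.Basis.toMatrix_apply, OrthonormalBasis.coe_toBasis_repr_apply,
    EuclideanSpace.basisFun_repr, h0, h1, h2]
  simp
  rw [show -(2 * √2) - 2 * √2 = -(4 * √2) by ring]
  rw [abs_neg, abs_of_pos (by positivity)]

theorem fcc_norm {b : Module.Basis (Fin 3) ℝ E3} (h0 : b 0 = !₂[√2, √2, 0])
    (h1 : b 1 = !₂[√2, 0, √2]) (h2 : b 2 = !₂[0, √2, √2]) {n : Fin 3 → ℤ} (hn : n ≠ 0) :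
    2 ≤ ‖∑ i, (n i : ℝ) • b i‖ := by
  have hs : √2 * √2 = 2 := Real.mul_self_sqrt (by norm_num)
  have key : 4 ≤ ‖∑ i, (n i : ℝ) • b i‖ ^ 2 := by
    rw [EuclideanSpace.norm_sq_eq, Fin.sum_univ_three, Fin.sum_univ_three, h0, h1, h2]
    simp
    have e0 : ((n 0 : ℝ) * √2 + n 1 * √2) ^ 2 = 2 * ((n 0 : ℝ) + n 1) ^ 2 := by
      linear_combination ((n 0 : ℝ) + n 1) ^ 2 * hs
    have e1 : ((n 0 : ℝ) * √2 + n 2 * √2) ^ 2 = 2 * ((n 0 : ℝ) + n 2) ^ 2 := by
      linear_combination ((n 0 : ℝ) + n 2) ^ 2 * hs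
    have e2 : ((n 1 : ℝ) * √2 + n 2 * √2) ^ 2 = 2 * ((n 1 : ℝ) + n 2) ^ 2 := by
      linear_combination ((n 1 : ℝ) + n 2) ^ 2 * hs
    rw [e0, e1, e2]
    have hz : (2 : ℤ) ≤ (n 0 + n 1) ^ 2 + (n 0 + n 2) ^ 2 + (n 1 + n 2) ^ 2 := by
      have hne : ¬(n 0 + n 1 = 0 ∧ n 0 + n 2 = 0 ∧ n 1 + n 2 = 0) := by
        rintro ⟨a, c, d⟩
        apply hn
        funext i
        fin_cases i
        · show n 0 = 0
          omega
        · show n 1 = 0
          omega
        · show n 2 = 0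
          omega
      have heven : Even ((n 0 + n 1) ^ 2 + (n 0 + n 2) ^ 2 + (n 1 + n 2) ^ 2) := by
        refine ⟨n 0 ^ 2 + n 1 ^ 2 + n 2 ^ 2 + n 0 * n 1 + n 0 * n 2 + n 1 * n 2, by ring⟩
      have hpos : 0 < (n 0 + n 1) ^ 2 + (n 0 + n 2) ^ 2 + (n 1 + n 2) ^ 2 := by
        by_contra hcon
        push Not at hcon
        apply hne
        refine ⟨?_, ?_, ?_⟩ <;> nlinarith [sq_nonneg (n 0 + n 1), sq_nonneg (n 0 + n 2), sq_nonneg (n 1 + n 2)]
      obtain ⟨k, hk⟩ := heven
      omega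
    have hr : (2 : ℝ) ≤ ((n 0 : ℝ) + n 1) ^ 2 + ((n 0 : ℝ) + n 2) ^ 2 + ((n 1 : ℝ) + n 2) ^ 2 := by
      exact_mod_cast hz
    linarith
  nlinarith [norm_nonneg (∑ i, (n i : ℝ) • b i)]

/-- **The lattice packing density of the ball is at least `π/√18`** -/
theorem ball_le_deltaL : ENNReal.ofReal (Real.pi / √18) ≤ deltaL (closedBall (0 : E3) 1) := by
  obtain ⟨b, h0, h1, h2⟩ := exists_fcc
  have h := le_deltaL_basis (isCompact_closedBall (0 : E3) 1) b (by
    intro n hn x hx y hy hxy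
    rw [interior_closedBall _ one_ne_zero, mem_ball_zero_iff] at hx hy
    have := fcc_norm h0 h1 h2 hn
    rw [← hxy] at this
    have h5 := norm_sub_le x y
    linarith)
  refine le_trans (le_of_eq ?_) h
  rw [fcc_det h0 h1 h2, EuclideanSpace.volume_closedBall_fin_three,
    ENNReal.ofReal_one, one_pow, one_mul, ← ENNReal.ofReal_div_of_pos (by positivity)]
  congr 1
  have h18 : √18 = 3 * √2 := by
    rw [show (18 : ℝ) = 3 ^ 2 * 2 by norm_num, Real.sqrt_mul (by norm_num),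
      Real.sqrt_sq (by norm_num)]
  rw [h18]
  have hp : (0 : ℝ) < √2 := by positivity
  field_simp

theorem ball_le_deltaTstar : ENNReal.ofReal (Real.pi / √18) ≤
    Pool.Agent.Helper59.Pack.deltaTstar (closedBall (0 : E3) 1) :=
  ball_le_deltaL.trans ((Pool.Agent.Helper59.Pack.deltaL_le_deltaT _).trans
    (deltaT_le_deltaTstar _))

/-- `0.7404 < π/√18` -/
theorem num_lt : (7404 / 10000 : ℝ) < Real.pi / √18 := by
  have h18 : √18 < 4.24265 := by
    rw [Real.sqrt_lt' (by norm_num)]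
    norm_num
  have h0 : 0 < √18 := by positivity
  rw [lt_div_iff₀ h0]
  have := Real.pi_gt_d6
  nlinarith

/-- from the finite-dimensional problem to the numerical bound -/
theorem num_le {M : ℝ} (hM : M ≤ 613 / 200) : (4 / 3 : ℝ) / (10 / 3 - M / 2) ≤ 7404 / 10000 := by
  rw [div_le_iff₀ (by linarith)]
  linarith

end Pool.Agent.Helper84.TS
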