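import Pool.Agent.Helper84.TS.Row

/-!
# The bounds for one class, and their consequences
-/

set_option autoImplicit false

namespace Pool.Agent.Helper84.TS

open Pool.Agent.Helper36.TS

/-- the bounds for one class -/
structure H1 : Prop where
  le_one : ∀ A, OF A → ∀ i, VV A i ≤ 1
  far : ∀ A, OF A → ∀ i j F, j ≠ i → A i j = some F →
    VV A i ≤ max (19 / 27) (11 / 12 - (2 + F j) / 4 - (2 + F j) ^ 2 / 4 + (2 + F j) ^ 3 / 4)
  few : ∀ A, OF A → ∀ i, (A i i = none ∨
    ∃ j j' F F', j ≠ i ∧ j' ≠ i ∧ j ≠ j' ∧ A i j = some F ∧ A i j' = some F') → VV A i ≤ 19 / 27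

variable {A : Fin 4 → Fin 4 → Option (Fin 4 → ℝ)}

/-- `1` if there is a cell -/
noncomputable def ee (o : Option (Fin 4 → ℝ)) : ℝ :=
  match o with
  | none => 0
  | some _ => 1

theorem VV_eq {i j k l : Fin 4} (h : [i, j, k, l].Nodup) :
    VV A i = fo i (A i i) + fo i (A i j) + fo i (A i k) + fo i (A i l) := by
  rw [VV, sum4 h (fun m => fo i (A i m))]

/-- a class of large value is a main cell and at most one far cell, and the far cell is small -/
theorem class_data (H : H1) (h : OF A) {i : Fin 4} {τ W : ℝ} (h0 : 19 / 27 < τ)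
    (hV : τ < VV A i) (hW0 : 0 ≤ W) (hτ : 11 / 12 - W / 4 - W ^ 2 / 4 + W ^ 3 / 4 ≤ τ) :
    ∃ M, A i i = some M ∧ (∀ j F, j ≠ i → A i j = some F → 2 + F j ≤ W) ∧
      (∀ j k l, [i, j, k, l].Nodup → ee (A i j) + ee (A i k) + ee (A i l) ≤ 1) ∧
      (∀ E, (∀ w, 0 ≤ w → w ≤ W → w * (1 + w) ^ 2 / 4 - w ^ 3 / 3 ≤ E) → τ - E < fcl i M) := by
  have hM : ∃ M, A i i = some M := by
    by_contra hcon
    have : A i i = none := by
      rcases hm : A i i with _ | M
      · rfl
      · exact absurd ⟨M, hm⟩ hcon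
    have := H.few A h i (Or.inl this)
    linarith
  obtain ⟨M, hM⟩ := hM
  have hfar : ∀ j F, j ≠ i → A i j = some F → 2 + F j ≤ W := by
    intro j F hj hF
    have h1 := H.far A h i j F hj hF
    have h2 := h.far i j F hj hF
    rcases le_max_iff.1 (le_trans hV.le h1) with h3 | h3
    · linarith
    · by_contra h4
      push Not at h4
      have h5 : 2 + F j < 1 := by linarith
      nlinarith [mul_pos (by linarith : 0 < 2 + F j - W) (by linarith : 0 < 1 - (2 + F j)),
        mul_pos (by linarith : 0 < 2 + F j - W) (by linarith : 0 < 1 - W),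
        mul_nonneg (mul_nonneg hW0 (by linarith : 0 ≤ 2 + F j - W)) (by linarith : 0 ≤ 1 - (2 + F j)),
        mul_nonneg (mul_nonneg (by linarith : 0 ≤ 2 + F j) (by linarith : 0 ≤ 2 + F j - W)) (by linarith : 0 ≤ 1 - (2 + F j)),
        mul_nonneg (mul_nonneg (by linarith : 0 ≤ 2 + F j) (by linarith : 0 ≤ 2 + F j - W)) (by linarith : 0 ≤ 1 - W)]
  have htwo : ∀ j j' F F', j ≠ i → j' ≠ i → A i j = some F → A i j' = some F' → j = j' := by
    intro j j' F F' hj hj' hF hF'
    by_contra hne
    have := H.few A h i (Or.inr ⟨j, j', F, F', hj, hj', hne, hF, hF'⟩)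
    linarith
  refine ⟨M, hM, hfar, ?_, ?_⟩
  · intro j k l hn
    have hne := nodup_ne hn
    have hjk : j ≠ k ∧ j ≠ l ∧ k ≠ l := by
      have := hn
      simp only [List.nodup_cons, List.mem_cons, List.not_mem_nil, or_false, not_or] at this
      exact ⟨this.2.1.1, this.2.1.2, this.2.2.1⟩
    rcases hj : A i j with _ | F <;> rcases hk : A i k with _ | G <;> rcases hl : A i l with _ | K
    · simp [ee]
    · simp [ee]
    · simp [ee]
    · exact absurd (htwo k l G K hne.2.1 hne.2.2 hk hl) hjk.2.2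
    · simp [ee]
    · exact absurd (htwo j l F K hne.1 hne.2.2 hj hl) hjk.2.1
    · exact absurd (htwo j k F G hne.1 hne.2.1 hj hk) hjk.1
    · exact absurd (htwo j k F G hne.1 hne.2.1 hj hk) hjk.1
  · intro E hE
    have hE0 : 0 ≤ E := by
      have := hE 0 le_rfl hW0
      simpa using this
    have hb : ∀ j F, j ≠ i → A i j = some F → fcl i F ≤ E := by
      intro j F hj hF
      obtain ⟨k, l, hn⟩ := exists_rest2 hj.symm
      have h2 := h.far i j F hj hF
      have hc := h.cell i j F hF
      have h3 := far_le hc hn (by linarith)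
      have h4 := cell_lin hc hn
      exact le_trans h3 (hE _ (by linarith) (hfar j F hj hF))
    obtain ⟨j, k, l, hn⟩ := exists_rest3 i
    have hne := nodup_ne hn
    have hjk : j ≠ k ∧ j ≠ l ∧ k ≠ l := by
      have := hn
      simp only [List.nodup_cons, List.mem_cons, List.not_mem_nil, or_false, not_or] at this
      exact ⟨this.2.1.1, this.2.1.2, this.2.2.1⟩
    rw [VV_eq hn, hM] at hV
    rcases hj : A i j with _ | F <;> rcases hk : A i k with _ | G <;>
      rcases hl : A i l with _ | K <;> rw [hj, hk, hl] at hV <;> simp only [fo] at hV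
    · linarith
    · have := hb l K hne.2.2 hl
      linarith
    · have := hb k G hne.2.1 hk
      linarith
    · exact absurd (htwo k l G K hne.2.1 hne.2.2 hk hl) hjk.2.2
    · have := hb j F hne.1 hj
      linarith
    · exact absurd (htwo j l F K hne.1 hne.2.2 hj hl) hjk.2.1
    · exact absurd (htwo j k F G hne.1 hne.2.1 hj hk) hjk.1
    · exact absurd (htwo j k F G hne.1 hne.2.1 hj hk) hjk.1

/-- the slot of a main cell with the far cell of its class in the same column -/
theorem slot_o (h : OF A) {i j : Fin 4} {M : Fin 4 → ℝ} (hM : A i i = some M) (hj : j ≠ i)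
    {c W S ρ : ℝ} (hc : 0 ≤ c) (hW : ∀ F, A i j = some F → 2 + F j ≤ W)
    (h1 : ∀ u : ℝ, -1 ≤ u → gs c u ≤ S)
    (h2 : ∀ u w d : ℝ, -1 ≤ u → 0 ≤ w → w ≤ W → 0 ≤ d → u ≤ -w + d →
      gs c u + (w * (1 + w) ^ 2 / 4 - w ^ 3 / 3) ≤ S + ρ * d) :
    gs c (-M j) + fo i (A i j) ≤ S + ρ * (ee (A i j) * (M i - 1)) := by
  obtain ⟨k, l, hn⟩ := exists_rest2 hj.symm
  have hcM := h.cell i i M hM
  have hl := cell_lin hcM hn
  rcases hF : A i j with _ | F
  · simp only [fo, ee]
    have := h1 (-M j) (by linarith)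
    linarith
  · simp only [fo, ee]
    have hcF := h.cell i j F hF
    have hlF := cell_lin hcF hn
    have h3 := h.far i j F hj hF
    have hs : Sep M F := h.sep i i i j M F hM hF (by simpa using hj.symm)
    have ho := own hcM hcF hs hj (h.main i M hM) h3
    have hm : max (M i - F i) 0 ≤ M i - 1 := max_le (by linarith) (by linarith)
    have h4 := h2 (-M j) (2 + F j) (M i - 1) (by linarith) (by linarith) (hW F hF) (by linarith)
      (by linarith)
    have h5 := far_le hcF hn (by linarith)
    linarith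

end Pool.Agent.Helper84.TS
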