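import Pool.Agent.Helper84.TS.Cases
import Pool.Agent.Helper84.TS.Ball
import Pool.Agent.Helper36.TS.FdLoc

/-!
# From the finite-dimensional problem to the comparison of the tetrahedron and the ball
-/

set_option autoImplicit false

namespace Pool.Agent.Helper84.TS

open Pool.Agent.Helper59.Pack Pool.Agent.Helper69.MD MeasureTheory Metric
open scoped ENNReal

theorem final (h : FD (613 / 200)) :
    deltaTstar tet ≤ ENNReal.ofReal (7404 / 10000) ∧
      ENNReal.ofReal (7404 / 10000) < ENNReal.ofReal (Real.pi / √18) ∧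
      ENNReal.ofReal (Real.pi / √18) ≤ deltaTstar (closedBall (0 : E3) 1) ∧
      mTstar ≤ ENNReal.ofReal (7404 / 10000) := by
  have h1 : deltaTstar tet ≤ ENNReal.ofReal (7404 / 10000) :=
    (Pool.Agent.Helper36.TS.tstar_tet_of_fd (by norm_num) (by norm_num) h).trans
      (ENNReal.ofReal_le_ofReal (num_le le_rfl))
  refine ⟨h1, ?_, ball_le_deltaTstar, ?_⟩
  · exact (ENNReal.ofReal_lt_ofReal_iff (lt_trans (by norm_num) num_lt)).2 num_lt
  · exact (iInf₂_le (tet : Set E3) tet_body).trans h1

end Pool.Agent.Helper84.TS
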