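import Pool.Agent.Helper36.TS.FarF

/-!
# Families of cells indexed by class and column, class values, slots
-/

set_option autoImplicit false

namespace Pool.Agent.Helper84.TS

open Pool.Agent.Helper36.TS

/-- `A i i` is the main cell of class `i` and `A i j` the far cell `(i; j)`, if present -/
structure OF (A : Fin 4 → Fin 4 → Option (Fin 4 → ℝ)) : Prop where
  cell : ∀ i j v, A i j = some v → IsCell i v
  main : ∀ i v, A i i = some v → ∀ m, m ≠ i → -v m ≤ 1
  far : ∀ i j v, j ≠ i → A i j = some v → 1 < -v j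
  sep : ∀ i j i' j' v w, A i j = some v → A i' j' = some w → (i, j) ≠ (i', j') → Sep v w

/-- the value of the class `i` -/
noncomputable def VV (A : Fin 4 → Fin 4 → Option (Fin 4 → ℝ)) (i : Fin 4) : ℝ :=
  ∑ j, fo i (A i j)

/-- every family is an indexed family -/
theorem exists_OF {Y : Finset (Fin 4 → ℝ)} {c : (Fin 4 → ℝ) → Fin 4} (h : Fam Y c) :
    ∃ A, OF A ∧ ∑ v ∈ Y, fcl (c v) v = ∑ i, VV A i := by
  obtain ⟨A, h1, -, h3⟩ := sum_eq h
  refine ⟨A, ⟨?_, ?_, ?_, ?_⟩, h3⟩
  · intro i j v hv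
    obtain ⟨h4, h5, -⟩ := h1 i j v hv
    have := h.cell v h4
    rwa [h5] at this
  · intro i v hv
    exact big_main (h1 i i v hv).2.2
  · intro i j v hj hv
    have h5 := (h1 i j v hv).2.2
    have := big_far (i := i) (v := v) (by rw [h5]; exact hj)
    rwa [h5] at this
  · intro i j i' j' v w hv hw hne
    obtain ⟨a1, a2, a3⟩ := h1 i j v hv
    obtain ⟨b1, b2, b3⟩ := h1 i' j' w hw
    refine h.sep v a1 w b1 fun e => hne ?_
    subst e
    have : i = i' := by rw [← a2, b2]
    subst this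
    rw [← a3, b3]

theorem fo_nonneg_of {i : Fin 4} {o : Option (Fin 4 → ℝ)}
    (h : ∀ v, o = some v → 0 ≤ fcl i v) : 0 ≤ fo i o := by
  rcases o with _ | v
  · exact le_refl _
  · exact h v rfl

/-- the slot function -/
noncomputable def gs (c u : ℝ) : ℝ := c * u - u ^ 2 / 2 + (max (-u) 0) ^ 3 / 3

theorem gs_pos {c u : ℝ} (hu : 0 ≤ u) : gs c u = c * u - u ^ 2 / 2 := by
  rw [gs, max_eq_right (by linarith)]
  ring

theorem gs_neg {c u : ℝ} (hu : u ≤ 0) : gs c u = c * u - u ^ 2 / 2 - u ^ 3 / 3 := by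
  rw [gs, max_eq_left (by linarith)]
  ring

end Pool.Agent.Helper84.TS
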