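import Pool.Agent.Helper84.TS.Slot

/-!
# Rows of good cells, slots with and without a far cell
-/

set_option autoImplicit false

namespace Pool.Agent.Helper84.TS

open Pool.Agent.Helper36.TS

theorem ff_le {d a b c : ℝ} (ha : a ≤ 1) (hb : b ≤ 1) (hc : c ≤ 1) :
    ff d a b c = 7 / 6 - 3 / 2 * d + d ^ 2 / 2 - d ^ 3 / 6 - (1 - d) * (a ^ 2 + b ^ 2 + c ^ 2) / 2
      + ((max (-a) 0) ^ 3 + (max (-b) 0) ^ 3 + (max (-c) 0) ^ 3) / 3 := by
  rw [ff, max_eq_right (by linarith : a - 1 ≤ 0), max_eq_right (by linarith : b - 1 ≤ 0),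
    max_eq_right (by linarith : c - 1 ≤ 0)]
  ring

/-- the only entry that may be negative is `a` -/
theorem row_aux {d a b c : ℝ} (hd : 0 ≤ d) (hd1 : d < 1) (hs : a + b + c = 1 + d)
    (hal : -(1 - d) ≤ a) (_ : b ≤ 1) (_ : c ≤ 1)
    (hb0 : 0 ≤ b) (hc0 : 0 ≤ c) (ha1 : a ≤ 1)
    (hf : 3 / 5 ≤ 7 / 6 - 3 / 2 * d + d ^ 2 / 2 - d ^ 3 / 6 - (1 - d) * (a ^ 2 + b ^ 2 + c ^ 2) / 2
      + (max (-a) 0) ^ 3 / 3) :
    (a ^ 2 + b ^ 2 + c ^ 2) / 2 ≤ 3 / 2 - d / 2 + d ^ 2 / 6 - 7 / 10 := by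
  by_contra hcon
  push Not at hcon
  have h1 : (max (-a) 0) ^ 3 ≤ (1 - d) * a ^ 2 := by
    rcases le_total a 0 with h | h
    · rw [max_eq_left (by linarith)]
      nlinarith [sq_nonneg a]
    · rw [max_eq_right (by linarith)]
      have : 0 ≤ (1 - d) * a ^ 2 := mul_nonneg (by linarith) (sq_nonneg a)
      simpa using this
  rcases le_total 0 a with h | h
  · have h2 : (max (-a) 0) ^ 3 = 0 := by rw [max_eq_right (by linarith)]; simp
    rw [h2] at hf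
    nlinarith
  · -- a = - r
    have h3 : (1 + d - a) ^ 2 / 4 + a ^ 2 / 2 ≤ (a ^ 2 + b ^ 2 + c ^ 2) / 2 := by
      nlinarith [sq_nonneg (b - c)]
    -- r < 1/2
    have h4 : -(1 / 2) ≤ a := by
      by_contra h5
      push Not at h5
      have h6 : (1 - d) * ((a ^ 2 + b ^ 2 + c ^ 2) / 2 - a ^ 2 / 3) ≤
          7 / 6 - 3 / 5 - 3 / 2 * d + d ^ 2 / 2 - d ^ 3 / 6 := by nlinarith
      have h7 : (1 + d - a) ^ 2 / 4 + a ^ 2 / 6 ≤ (a ^ 2 + b ^ 2 + c ^ 2) / 2 - a ^ 2 / 3 := by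
        linarith
      have h8 : (29 / 48 : ℝ) ≤ (a ^ 2 + b ^ 2 + c ^ 2) / 2 - a ^ 2 / 3 := by nlinarith
      have h9 : (1 - d) * (29 / 48) ≤ (1 - d) * ((a ^ 2 + b ^ 2 + c ^ 2) / 2 - a ^ 2 / 3) :=
        mul_le_mul_of_nonneg_left h8 (by linarith)
      nlinarith [mul_nonneg hd hd, mul_nonneg hd (mul_nonneg hd hd)]
    have h10 : (max (-a) 0) ^ 3 / 3 ≤ 1 / 24 := by
      rw [max_eq_left (by linarith)]
      have : (-a) ^ 3 ≤ (1 / 2) ^ 3 := pow_le_pow_left₀ (by linarith) (by linarith) 3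
      norm_num at this ⊢
      linarith
    nlinarith

/-- **Row lemma** -/
theorem row {d a b c ν : ℝ} (hd : 0 ≤ d) (hd1 : d < 1) (hs : a + b + c = 1 + d)
    (ha : a ≤ 1) (hb : b ≤ 1) (hc : c ≤ 1) (hal : -(1 - d) ≤ a) (hbl : -(1 - d) ≤ b)
    (hcl : -(1 - d) ≤ c) (hf : 3 / 5 ≤ ff d a b c) :
    ff d a b c ≤ 7 / 6 - ν + (gs ν a + gs ν b + gs ν c) - (ν + 7 / 10) * d := by
  have key : (a ^ 2 + b ^ 2 + c ^ 2) / 2 ≤ 3 / 2 - d / 2 + d ^ 2 / 6 - 7 / 10 := by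
    rw [ff_le ha hb hc] at hf
    have z : ∀ x : ℝ, 0 ≤ x → (max (-x) 0) ^ 3 = 0 := by
      intro x hx
      rw [max_eq_right (by linarith)]
      simp
    rcases le_total 0 a with h1 | h1
    · rcases le_total 0 b with h2 | h2
      · rcases le_total 0 c with h3 | h3
        · exact row_aux hd hd1 hs hal hb hc h2 h3 ha (by rw [z b h2, z c h3] at hf; linarith)
        · have := row_aux hd hd1 (a := c) (b := a) (c := b) (by linarith) hcl ha hb h1 h2 hc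
            (by rw [z b h2, z a h1] at hf; linarith)
          linarith
      · have := row_aux hd hd1 (a := b) (b := a) (c := c) (by linarith) hbl ha hc h1 (by linarith)
          hb (by rw [z c (by linarith), z a h1] at hf; linarith)
        linarith
    · exact row_aux hd hd1 hs hal hb hc (by linarith) (by linarith) ha
        (by rw [z b (by linarith), z c (by linarith)] at hf; linarith)
  rw [ff_le ha hb hc]
  unfold gs
  have e : ν * a + ν * b + ν * c = ν * (1 + d) := by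
    rw [← hs]
    ring
  have k2 := mul_le_mul_of_nonneg_left key hd
  ring_nf at e k2 ⊢
  linarith

/-- a slot without far cell -/
theorem slot_n {c u : ℝ} (hc : 0 ≤ c) (hu : -1 ≤ u) : gs c u ≤ c ^ 2 / 2 := by
  rcases le_total 0 u with h | h
  · rw [gs_pos h]
    nlinarith [sq_nonneg (u - c)]
  · rw [gs_neg h]
    nlinarith [mul_nonneg hc (neg_nonneg.2 h), mul_nonneg (neg_nonneg.2 h) (neg_nonneg.2 h), mul_nonneg (mul_nonneg (neg_nonneg.2 h) (neg_nonneg.2 h)) (by linarith : 0 ≤ 1 + u), sq_nonneg c]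

/-- a slot with a far cell, hard: `ρ ≥ c + w` -/
theorem slot_f {c u w d ρ : ℝ} (hc : 0 ≤ c) (hu : -1 ≤ u) (hw : 0 ≤ w) (hw1 : w ≤ 1)
    (hd : 0 ≤ d) (hown : u ≤ -w + d) (hρ : c + w ≤ ρ) :
    gs c u + (w * (1 + w) ^ 2 / 4 - w ^ 3 / 3) ≤ (1 / 4 - c) * w + w ^ 3 / 4 + ρ * d := by
  rcases le_total 0 u with h | h
  · rw [gs_pos h]
    have h1 : ρ * (u + w) ≤ ρ * d := mul_le_mul_of_nonneg_left (by linarith) (by linarith)
    nlinarith [mul_nonneg h (by linarith : 0 ≤ ρ - c), mul_nonneg hw (by linarith : 0 ≤ ρ - c - w),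
      mul_nonneg hw hw, mul_nonneg hw (mul_nonneg hw (sub_nonneg.2 hw1)), sq_nonneg u]
  · rw [gs_neg h]
    rcases le_total (-u) w with h2 | h2
    · have h1 : ρ * (u + w) ≤ ρ * d := mul_le_mul_of_nonneg_left (by linarith) (by linarith)
      have h3 : (c + w) * (u + w) ≤ ρ * (u + w) := mul_le_mul_of_nonneg_right hρ (by linarith)
      nlinarith [mul_nonneg (neg_nonneg.2 h) (by linarith : 0 ≤ w + u), sq_nonneg (w + u),
        mul_nonneg (by linarith : 0 ≤ w + u) hw, mul_nonneg (mul_nonneg (neg_nonneg.2 h) (by linarith : 0 ≤ w + u)) (by linarith : 0 ≤ 1 - w), mul_nonneg (sq_nonneg (w+u)) (by linarith : 0 ≤ 1 - w), mul_nonneg (sq_nonneg (w+u)) hw]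
    · have h1 : 0 ≤ ρ * d := mul_nonneg (by linarith) hd
      nlinarith [mul_nonneg hc (by linarith : 0 ≤ -u - w), mul_nonneg (by linarith : 0 ≤ -u - w) hw,
        mul_nonneg (by linarith : 0 ≤ -u - w) (by linarith : 0 ≤ 1 + u),
        mul_nonneg (mul_nonneg (by linarith : 0 ≤ -u - w) hw) (by linarith : 0 ≤ 1 + u),
        mul_nonneg (mul_nonneg (by linarith : 0 ≤ -u - w) (by linarith : 0 ≤ -u - w)) (by linarith : 0 ≤ 1 + u),
        mul_nonneg (mul_nonneg (by linarith : 0 ≤ -u - w) hw) (by linarith : 0 ≤ 1 - w)]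

end Pool.Agent.Helper84.TS
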