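import Pool.Agent.Helper84.TS.Opt

/-!
# Slots without caps
-/

set_option autoImplicit false

namespace Pool.Agent.Helper84.TS

open Pool.Agent.Helper36.TS

/-- the crude bound for a far cell -/
theorem far_le {i j k l : Fin 4} {v : Fin 4 → ℝ} (hv : IsCell i v) (h : [i, j, k, l].Nodup)
    (hf : 1 ≤ -v j) :
    fcl i v ≤ (2 + v j) * (1 + (2 + v j)) ^ 2 / 4 - (2 + v j) ^ 3 / 3 := by
  have b := far_bounds hv h hf
  rw [far_formula hv h hf]
  obtain ⟨b1, b2, b3, b4, b5, b6, b7, b8, b9⟩ := b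
  set w := 2 + v j with hw
  have e1 : -v l = (v i - 1) - (v l + (v i - 1)) := by ring
  have e2 : -v k = (v i - 1) - (v k + (v i - 1)) := by ring
  rw [e1, e2]
  set al := v l + (v i - 1) with hal
  set be := v k + (v i - 1) with hbe
  set d := v i - 1 with hd
  -- A = 1 - al, B = 1 - be
  obtain ⟨A, hA⟩ : ∃ A, A = 1 - al := ⟨_, rfl⟩
  obtain ⟨B, hB⟩ : ∃ B, B = 1 - be := ⟨_, rfl⟩
  have hAp : 0 < A := by linarith
  have hBp : 0 < B := by linarith
  have hAB : A + B ≤ 1 + w := by linarith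
  have e3 : d - al = w - B := by linarith
  have e4 : d - be = w - A := by linarith
  rw [e3, e4, ← hA, ← hB]
  have hw1 : 0 ≤ 1 - w := by linarith
  have hsq : A * B ≤ (1 + w) ^ 2 / 4 := by
    have g := pow_le_pow_left₀ (by linarith only [hAp, hBp] : 0 ≤ A + B) hAB 2
    linarith only [g, sq_nonneg (A - B)]
  rcases le_total (w - B) 0 with h1 | h1 <;> rcases le_total (w - A) 0 with h2 | h2
  · rw [max_eq_right h1, max_eq_right h2]
    linarith only [mul_le_mul_of_nonneg_left hsq b1.le]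
  · rw [max_eq_right h1, max_eq_left h2]
    linarith only [mul_nonneg (mul_nonneg b1.le hAp.le) (sub_nonneg.2 hAB), mul_nonneg b1.le (sq_nonneg (1 - w)),
      mul_nonneg (mul_nonneg b1.le hw1) h2, mul_nonneg hAp.le (mul_nonneg h2 h2), mul_nonneg b1.le (mul_nonneg h2 h2)]
  · rw [max_eq_left h1, max_eq_right h2]
    linarith only [mul_nonneg (mul_nonneg b1.le hBp.le) (sub_nonneg.2 hAB), mul_nonneg b1.le (sq_nonneg (1 - w)),
      mul_nonneg (mul_nonneg b1.le hw1) h1, mul_nonneg hBp.le (mul_nonneg h1 h1), mul_nonneg b1.le (mul_nonneg h1 h1)]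
  · rw [max_eq_left h1, max_eq_left h2]
    have hw2 : w ≤ (1 + w) ^ 2 / 4 := by linarith only [sq_nonneg (1 - w)]
    have hw3 : w * w ≤ (1 + w) ^ 2 / 4 := by linarith only [hw2, mul_nonneg b1.le hw1]
    have g1 : (w - B) ^ 3 ≤ w * (w * (w - B)) := by
      linarith only [mul_nonneg h1 (mul_nonneg hBp.le h1), mul_nonneg h1 (mul_nonneg hBp.le b1.le)]
    have g2 : (w - A) ^ 3 ≤ w * (w * (w - A)) := by
      linarith only [mul_nonneg h2 (mul_nonneg hAp.le h2), mul_nonneg h2 (mul_nonneg hAp.le b1.le)]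
    linarith only [g1, g2, mul_le_mul_of_nonneg_left hw3 b1.le, mul_nonneg b1.le (mul_nonneg b1.le h1),
      mul_nonneg b1.le (mul_nonneg b1.le h2), mul_nonneg b1.le (mul_nonneg hAp.le h1), mul_nonneg b1.le (mul_nonneg hBp.le h2)]

end Pool.Agent.Helper84.TS
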